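import Pool.Agent.Q216.RK.Basic
import Pool.Agent.Q216.RK.Stm

/-!
# Read-k DNF formulas: the pivotal identity
-/

namespace Pool.Agent.Q95.RK

open Pool.Agent.Q216.RK

theorem satT_flp {n : ℕ} {T : Tm n} {i : Fin n} (h : T i = none) (x : Pt n) :
    satT T (flp x i) = satT T x := by
  refine satT_congr fun j hj => ?_
  refine flp_of_ne x ?_
  rintro rfl
  exact mem_vars.1 hj h

theorem on_flp {n : ℕ} {F : Finset (Tm n)} {i : Fin n} (h : ∀ T ∈ F, T i = none) (x : Pt n) :
    on F (flp x i) = on F x := by
  refine on_congr fun T hT j hj => ?_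
  refine flp_of_ne x ?_
  rintro rfl
  exact mem_vars.1 hj (h T hT)

/-- The value of the formula at the points satisfying `Q`. -/
theorem on_eq {n : ℕ} {F : Finset (Tm n)} {T Q : Tm n} {i : Fin n} {a : Bool} (hT : T ∈ F)
    (ha : T i = some a) (hK : Kill F T Q i) {x : Pt n} (hx : satT Q x = true) :
    on F x = (on (F.filter (fun T' => T' i = none)) x ||
      (satT (cut T {i}) x && decide (x i = a))) := by
  rw [Bool.eq_iff_iff, Bool.or_eq_true, Bool.and_eq_true, on_iff, on_iff, decide_eq_true_eq]
  constructor
  · rintro ⟨T', hT', h1⟩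
    by_cases h2 : T' i = none
    · exact Or.inl ⟨T', by simp [hT', h2], h1⟩
    · right
      have h3 : T' = T := by
        by_contra h3
        obtain ⟨j, b, _, hj, hb⟩ := hK.2 T' hT' h3 h2
        have e1 := satT_iff.1 hx j b hj
        have e2 := satT_iff.1 h1 j _ hb
        rw [e1] at e2
        cases b <;> simp at e2
      subst h3
      refine ⟨?_, satT_iff.1 h1 i a ha⟩
      rw [satT_iff] at h1 ⊢
      intro j b hb
      refine h1 j b ?_
      unfold cut at hb
      split_ifs at hb
      exact hb
  · rintro (⟨T', hT', h1⟩ | ⟨h1, h2⟩)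
    · exact ⟨T', (Finset.mem_filter.1 hT').1, h1⟩
    · refine ⟨T, hT, ?_⟩
      rw [satT_iff] at h1 ⊢
      intro j b hb
      by_cases hj : j = i
      · subst hj
        rw [ha] at hb
        rw [h2]
        exact Option.some.inj hb
      · refine h1 j b ?_
        unfold cut
        rw [if_neg (by simpa using hj), hb]

theorem piv : S_PIV := by
  intro n F T Q i a h hT ha hK hh
  set F0 := F.filter (fun T' => T' i = none) with hF0
  have hF0n : ∀ T' ∈ F0, T' i = none := fun T' hT' => (Finset.mem_filter.1 hT').2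
  have hpt : ∀ x : Pt n, ind (on F x) * ind (satT Q x) * (sg (x i) * h x) +
      ind (on F (flp x i)) * ind (satT Q (flp x i)) * (sg (flp x i i) * h (flp x i)) =
      sg a * (ind (satT Q x) * ind (satT (cut T {i}) x) * ind (!(on F0 x)) * h x) := by
    intro x
    rw [satT_flp hK.1, hh, flp_same, sg_not]
    by_cases hx : satT Q x = true
    · have hx2 : satT Q (flp x i) = true := by rw [satT_flp hK.1, hx]
      rw [on_eq hT ha hK hx, on_eq hT ha hK hx2, on_flp hF0n, flp_same,
        satT_flp (T := cut T {i}) (by simp [cut]), hx, ← hF0]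
      cases on F0 x <;> cases satT (cut T {i}) x <;> cases a <;> cases x i <;>
        simp [ind, sg]
    · rw [Bool.not_eq_true] at hx
      rw [hx, ind_false]
      ring
  have h1 : Ex (fun x => ind (on F x) * ind (satT Q x) * (sg (x i) * h x)) +
      Ex (fun x => ind (on F (flp x i)) * ind (satT Q (flp x i)) *
        (sg (flp x i i) * h (flp x i))) =
      sg a * Ex (fun x => ind (satT Q x) * ind (satT (cut T {i}) x) * ind (!(on F0 x)) * h x) := by
    rw [← Ex_add, ← Ex_mul_left]
    exact Ex_congr hpt
  have h2 := Ex_flp i (fun x => ind (on F x) * ind (satT Q x) * (sg (x i) * h x))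
  rw [h2] at h1
  linarith

end Pool.Agent.Q95.RK
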